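import Pool.Agent.N801.CF.Crt

/-!
# Infinitely many values `n ^ 2 + n + 1` of integral quadratic forms with two variables or more
-/

set_option autoImplicit false

namespace Pool.Agent.U131.HS

open Pool.Agent.N801.CF

variable {M : Type*} [AddCommGroup M] (Q : QF M)

theorem b_self (x : M) : Q.b x x = 2 * Q.f x := by
  have h1 := Q.f_add x x
  have h2 := Q.f_smul 2 x
  rw [two_smul] at h2
  linarith

/-- the values of the form at the factors of the vectors `α v0 + β u` -/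
theorem factor {v0 u : M} (horth : Q.b v0 u = 0) {α β a : ℤ} {v z : M}
    (hz : ∀ x, Q.b z x = 0) (hfz : Q.f z = 0) (h : α • v0 + β • u = a • v + z) :
    a ^ 2 * Q.f v = α ^ 2 * Q.f v0 + β ^ 2 * Q.f u ∧ a * Q.b v v0 = 2 * α * Q.f v0 := by
  constructor
  · have h1 : Q.f (a • v + z) = a ^ 2 * Q.f v := by
      rw [Q.f_add, Q.f_smul, hfz, Q.b_comm, hz]
      ring
    have h2 : Q.f (α • v0 + β • u) = α ^ 2 * Q.f v0 + β ^ 2 * Q.f u := by
      rw [Q.f_add, Q.f_smul, Q.f_smul, Q.b_smul, Q.b_smul', horth]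
      ring
    rw [← h1, ← h2, h]
  · have h1 : Q.b (a • v + z) v0 = a * Q.b v v0 := by
      rw [Q.b_add, Q.b_smul, hz]
      ring
    have h2 : Q.b (α • v0 + β • u) v0 = 2 * α * Q.f v0 := by
      rw [Q.b_add, Q.b_smul, Q.b_smul, b_self, Q.b_comm u, horth]
      ring
    rw [← h1, ← h2, h]

theorem bound {a c V : ℤ} (hV : a * c = V) (hV0 : V ≠ 0) : a ^ 2 ≤ V ^ 2 := by
  have hc : c ≠ 0 := by
    rintro rfl
    rw [mul_zero] at hV
    exact hV0 hV.symm
  have hc1 : 1 ≤ c ^ 2 := by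
    have : 0 < c ^ 2 := by positivity
    omega
  rw [← hV, mul_pow]
  nlinarith [sq_nonneg a]

/-- **Growth**: a solution `4 f(v0) = m0 ^ 2 + 3` and a vector orthogonal to it give solutions all of
whose factors have large values. -/
theorem grow {v0 u : M} {m0 : ℤ} (h0 : 4 * Q.f v0 = m0 ^ 2 + 3) (horth : Q.b v0 u = 0)
    (hu : 0 < Q.f u) (B : ℤ) :
    ∃ (w : M) (m : ℤ), 4 * Q.f w = m ^ 2 + 3 ∧
      ∀ (a : ℤ) (v z : M), (∀ x, Q.b z x = 0) → Q.f z = 0 → w = a • v + z → B < Q.f v := by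
  have hF : 0 < Q.f v0 := by nlinarith [sq_nonneg m0]
  have hm0 : m0 ≠ 0 := by
    rintro rfl
    have : 4 * Q.f v0 = 3 := by rw [h0]; ring
    omega
  have hm1 : 1 ≤ m0 ^ 2 := by
    have : 0 < m0 ^ 2 := by positivity
    omega
  by_cases hsq : IsSquare (4 * Q.f u)
  · obtain ⟨k, hk⟩ := hsq
    have hk0 : k ≠ 0 := by
      rintro rfl
      omega
    set τ : ℤ := m0 * k * (|B| + 1) with hτ
    set t : ℤ := m0 * k * τ with ht
    have htB : t = (m0 * k) ^ 2 * (|B| + 1) := by rw [ht, hτ]; ring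
    have hmk : 1 ≤ (m0 * k) ^ 2 := by
      have : 0 < (m0 * k) ^ 2 := by positivity
      omega
    have hB0 : 0 ≤ |B| := abs_nonneg B
    have ht0 : 0 ≤ t := by rw [htB]; positivity
    have hτ2 : |B| < τ ^ 2 := by
      rw [hτ, mul_pow]
      nlinarith [mul_le_mul_of_nonneg_right hmk (sq_nonneg (|B| + 1))]
    set s : ℤ := 8 * τ * Q.f v0 * (t + 1) with hs
    refine ⟨(1 + 2 * t) • v0 + s • u, m0 + s * k, ?_, ?_⟩
    · rw [Q.f_add, Q.f_smul, Q.f_smul, Q.b_smul, Q.b_smul', horth]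
      have e1 : 4 * (s ^ 2 * Q.f u) = s ^ 2 * k ^ 2 := by linear_combination s ^ 2 * hk
      have e2 : 4 * ((1 + 2 * t) ^ 2 * Q.f v0) = (1 + 2 * t) ^ 2 * 4 * Q.f v0 := by ring
      have e3 : 2 * m0 * s * k = 16 * t * Q.f v0 * (t + 1) := by rw [hs, ht]; ring
      linear_combination e1 + h0 - e3
    · intro a v z hz hfz h
      obtain ⟨g1, g2⟩ := factor Q horth hz hfz h
      by_contra hB
      have hfB : Q.f v ≤ |B| := le_trans (not_lt.1 hB) (le_abs_self B)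
      have hV0 : 2 * (1 + 2 * t) * Q.f v0 ≠ 0 := by positivity
      have h2 := bound g2 hV0
      have h3 : s ^ 2 ≤ a ^ 2 * Q.f v := by
        rw [g1]
        have e1 : 0 ≤ (1 + 2 * t) ^ 2 * Q.f v0 := by positivity
        have e2 : s ^ 2 * 1 ≤ s ^ 2 * Q.f u := mul_le_mul_of_nonneg_left hu (sq_nonneg s)
        linarith
      have h4 : a ^ 2 * Q.f v ≤ (2 * (1 + 2 * t) * Q.f v0) ^ 2 * |B| := by
        calc a ^ 2 * Q.f v ≤ a ^ 2 * |B| := mul_le_mul_of_nonneg_left hfB (sq_nonneg a)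
          _ ≤ _ := mul_le_mul_of_nonneg_right h2 hB0
      have h5 : (2 * (1 + 2 * t) * Q.f v0) ^ 2 * |B| ≤ (4 * (t + 1) * Q.f v0) ^ 2 * |B| := by
        apply mul_le_mul_of_nonneg_right _ hB0
        apply pow_le_pow_left₀ (by positivity)
        nlinarith
      have h6 : s ^ 2 = 4 * τ ^ 2 * (4 * (t + 1) * Q.f v0) ^ 2 := by rw [hs]; ring
      have h7 : 0 < (4 * (t + 1) * Q.f v0) ^ 2 := by positivity
      have h8 : 4 * τ ^ 2 * (4 * (t + 1) * Q.f v0) ^ 2 ≤ (4 * (t + 1) * Q.f v0) ^ 2 * |B| := by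
        linarith
      nlinarith
  · set K : ℤ := 2 * Q.f v0 * (|B| + 1) with hK
    have hB0 : 0 ≤ |B| := abs_nonneg B
    have hK0 : 0 < K := by positivity
    have hN : ¬ IsSquare (4 * Q.f u * K ^ 2) := by
      rintro ⟨r, hr⟩
      apply hsq
      have h1 : K ^ 2 ∣ r ^ 2 := ⟨4 * Q.f u, by rw [pow_two, ← hr]; ring⟩
      obtain ⟨q, rfl⟩ := (Int.pow_dvd_pow_iff two_ne_zero).1 h1
      refine ⟨q, ?_⟩
      have h2 : K ^ 2 ≠ 0 := by positivity
      apply mul_right_cancel₀ h2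
      rw [hr]
      ring
    obtain ⟨x, y, hxy, hy⟩ := Pell.exists_of_not_isSquare (d := 4 * Q.f u * K ^ 2)
      (by positivity) hN
    refine ⟨(1 : ℤ) • v0 + (m0 * K * y) • u, m0 * x, ?_, ?_⟩
    · rw [Q.f_add, Q.f_smul, Q.f_smul, Q.b_smul, Q.b_smul', horth]
      linear_combination h0 - m0 ^ 2 * hxy
    · intro a v z hz hfz h
      obtain ⟨g1, g2⟩ := factor Q horth hz hfz h
      by_contra hB
      have hfB : Q.f v ≤ |B| := le_trans (not_lt.1 hB) (le_abs_self B)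
      have hV0 : 2 * 1 * Q.f v0 ≠ 0 := by positivity
      have h2 := bound g2 hV0
      have hy1 : 1 ≤ y ^ 2 := by
        have : 0 < y ^ 2 := by positivity
        omega
      have h3 : K ^ 2 < a ^ 2 * Q.f v := by
        rw [g1]
        have e1 : K ^ 2 ≤ (m0 * K * y) ^ 2 := by
          have : (m0 * K * y) ^ 2 = K ^ 2 * (m0 ^ 2 * y ^ 2) := by ring
          rw [this]
          have : 1 ≤ m0 ^ 2 * y ^ 2 := one_le_mul_of_one_le_of_one_le hm1 hy1
          nlinarith [sq_nonneg K]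
        have e2 : (m0 * K * y) ^ 2 * 1 ≤ (m0 * K * y) ^ 2 * Q.f u :=
          mul_le_mul_of_nonneg_left hu (sq_nonneg _)
        linarith
      have h4 : a ^ 2 * Q.f v ≤ (2 * 1 * Q.f v0) ^ 2 * |B| := by
        calc a ^ 2 * Q.f v ≤ a ^ 2 * |B| := mul_le_mul_of_nonneg_left hfB (sq_nonneg a)
          _ ≤ _ := mul_le_mul_of_nonneg_right h2 hB0
      have h5 : (2 * 1 * Q.f v0) ^ 2 * |B| ≤ K ^ 2 := by
        have : K ^ 2 = (2 * 1 * Q.f v0) ^ 2 * (|B| + 1) ^ 2 := by rw [hK]; ring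
        rw [this]
        apply mul_le_mul_of_nonneg_left _ (sq_nonneg _)
        nlinarith
      linarith

end Pool.Agent.U131.HS
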