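import Pool.Agent.U131.HS.Grow
import Pool.Agent.U758.CF.Rank
import Pool.Agent.U141.CF.Dense

/-!
# The degrees of the Hilbert squares of K3 surfaces birational to `F(X)`
-/

set_option autoImplicit false

namespace Pool.Agent.U131.HS

open Pool.Agent.Y95.Q Pool.Agent.Y95.Q.H4 Pool.Agent.N801.CF Pool.Agent.U758.CF
  Pool.Agent.X328.CF

variable {X : CubicFourfold} {H : H4 X}

/-- In rank three or more the degrees are unbounded. -/
theorem unbounded_hilbert (hH : H.IsCohomology) (hS : HilbertSquare H) (hr : 3 ≤ H.rank) (B : ℤ) :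
    ∃ (w : Fin 23 → ℤ) (a n : ℤ), H.IsHodge w ∧ H.Saturated w ∧
      a ^ 2 * H.disc w = 2 * n ^ 2 + 2 * n + 2 ∧ B < H.disc w := by
  obtain ⟨v, n, hv, hd⟩ := (hilbert_iff hH).1 hS
  rw [H.rank_eq] at hr
  obtain ⟨u, hu0, ho⟩ := exists_orth (H := H) (k := 2) (by omega) ![H.h, v]
  have hu1 : H.ip (u : Fin 23 → ℤ) H.h = 0 := ho 0
  have hu2 : H.ip (u : Fin 23 → ℤ) v = 0 := ho 1
  have hpos : 0 < (hq hH).f u := by
    have h3 := disc_prim hH hu1
    have h4 : 0 < H.ip (u : Fin 23 → ℤ) u := hH.pos _ u.2 fun h => hu0 (Subtype.ext h)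
    have h5 := disc_half hH (u : Fin 23 → ℤ)
    rw [hq_f]
    omega
  obtain ⟨w, m, hw, hfac⟩ := grow (hq hH) (v0 := ⟨v, hv⟩) (u := u) (m0 := 2 * n + 1) (by
      rw [hq_f]
      show 4 * (H.disc v / 2) = _
      rw [hd, Int.mul_ediv_cancel_left _ two_ne_zero]
      ring) (by
      show 3 * H.ip v (u : Fin 23 → ℤ) - H.ip H.h v * H.ip H.h (u : Fin 23 → ℤ) = 0
      rw [hH.comm v, hu2, hH.comm H.h (u : Fin 23 → ℤ), hu1]
      ring) hpos |B|
  have hodd : m % 2 = 1 := by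
    by_contra hc
    obtain ⟨q, hm⟩ : ∃ q, m = 2 * q := ⟨m / 2, by omega⟩
    rw [hm] at hw
    have : 4 * ((hq hH).f w - q ^ 2) = 3 := by linear_combination hw
    omega
  obtain ⟨k, hk⟩ : ∃ k, m = 2 * k + 1 := ⟨m / 2, by omega⟩
  have hfw : (hq hH).f w = k ^ 2 + k + 1 := by
    have : 4 * (hq hH).f w = 4 * (k ^ 2 + k + 1) := by rw [hw, hk]; ring
    omega
  have hdw : H.disc (w : Fin 23 → ℤ) = 2 * (k ^ 2 + k + 1) := by
    rw [disc_half hH, ← hq_f hH, hfw]
  have h0 : 0 < H.disc (w : Fin 23 → ℤ) := by rw [hdw]; have := two_pos_val k; omega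
  obtain ⟨y, a, l, ha, hsat, hy⟩ := hH.exists_saturated _ h0
  have hyH : H.IsHodge y := by
    refine H.isHodge_of_smul ha.ne' ?_
    have h1 : a • y = (w : Fin 23 → ℤ) - l • H.h := by
      rw [hy]
      abel
    rw [h1]
    exact H.isHodge_sub w.2 (H.isHodge_smul _ hH.h_hodge)
  refine ⟨y, a, k, hyH, hsat, ?_, ?_⟩
  · have : H.disc (w : Fin 23 → ℤ) = a ^ 2 * H.disc y := by rw [hy, hH.disc_comb]
    rw [← this, hdw]
    ring
  · have h1 := hfac a ⟨y, hyH⟩ (l • ⟨H.h, hH.h_hodge⟩) (by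
      intro x
      show 3 * H.ip (l • H.h) (x : Fin 23 → ℤ) - H.ip H.h (l • H.h) * H.ip H.h x = 0
      rw [ip_smul_left, ip_smul_right, hH.h_self]
      ring) (by
      rw [hq_f]
      show H.disc (l • H.h) / 2 = 0
      have : H.disc (l • H.h) = 0 := by
        rw [disc_smul]
        simp only [disc, hH.h_self]
        norm_num
      rw [this]
      norm_num) (by
      apply Subtype.ext
      exact hy)
    rw [hq_f] at h1
    have h2 := disc_half hH y
    have h3 : |B| < H.disc y / 2 := h1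
    have h4 := le_abs_self B
    have h5 := abs_nonneg B
    omega

end Pool.Agent.U131.HS
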